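import Pool.Agent.H567.PP.Stm
import Pool.Graph.R_seed8.Y125.VK.Shift

/-!
# Project PP: from character sums to bilinear sums
-/

set_option autoImplicit false

namespace Pool.Agent.H278.PP

open Finset
open Pool.Agent.Y957.VK (TT al)
open Pool.Agent.Y125.VK (Lr log_bound exp_sub_le phase_eq)
open Pool.Agent.helper24_UT (tw)
open Pool.Agent.H376R2.MR (er)
open Pool.Agent.H567.PP

theorem norm_er (τ x : ℝ) : ‖er τ x‖ = 1 := by
  unfold er
  exact Complex.norm_exp_ofReal_mul_I _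

theorem norm_tw (t x : ℝ) : ‖tw t x‖ = 1 := norm_er _ _

theorem norm_f {q : ℕ} (χ : DirichletCharacter ℂ q) (t : ℝ) (n : ℕ) :
    ‖χ (n : ZMod q) * tw t n‖ ≤ 1 := by
  rw [norm_mul, norm_tw, mul_one]
  exact DirichletCharacter.norm_le_one χ _

/-- the shift of a sum -/
theorem shift_one (g : ℕ → ℂ) (hg : ∀ n, ‖g n‖ ≤ 1) (N N' h : ℕ) (hNN : N ≤ N') :
    ‖∑ n ∈ Ioc N N', g n - ∑ n ∈ Ioc N N', g (n + h)‖ ≤ 2 * h := by
  have hb : ∀ a b : ℕ, ‖∑ n ∈ Ioc a (a + b), g n‖ ≤ b := by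
    intro a b
    refine (norm_sum_le _ _).trans ?_
    refine (Finset.sum_le_sum fun n _ => hg n).trans ?_
    simp
  have h1 : ∑ n ∈ Ioc N N', g (n + h) = ∑ n ∈ Ioc (N + h) (N' + h), g n := by
    rw [← Finset.map_add_right_Ioc, Finset.sum_map]
    rfl
  have h2 : ∑ n ∈ Ioc N N', g n + ∑ n ∈ Ioc N' (N' + h), g n =
      ∑ n ∈ Ioc N (N + h), g n + ∑ n ∈ Ioc (N + h) (N' + h), g n := by
    rw [Finset.sum_Ioc_consecutive g hNN (by omega),
      Finset.sum_Ioc_consecutive g (by omega) (by omega)]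
  have h3 : ∑ n ∈ Ioc N N', g n - ∑ n ∈ Ioc N N', g (n + h) =
      ∑ n ∈ Ioc N (N + h), g n - ∑ n ∈ Ioc N' (N' + h), g n := by
    rw [h1]
    linear_combination h2
  rw [h3]
  refine (norm_sub_le _ _).trans ?_
  linarith [hb N h, hb N' h]

/-- the phase -/
theorem phase_be (D : ℕ) (t : ℝ) (b : ℕ → ℤ) (Q : ℕ → ℕ) (v : ℤ) (n r x y : ℕ) (hn : 1 ≤ n) :
    2 * Real.pi * (∑ i ∈ Icc 1 r, be D t b Q v n i * ((x : ℝ) * y) ^ i) =
      2 * Real.pi * (∑ i ∈ Icc 1 r, (b i : ℝ) / (Q i : ℝ) * (((v * (x * y) : ℤ) : ℝ)) ^ i) +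
        -t * Lr r ((D : ℝ) * x * y / n) := by
  have h1 := phase_eq t n r (D * x) y hn
  have h2 : (((D * x : ℕ) : ℝ)) = (D : ℝ) * x := by push_cast; ring
  rw [h2] at h1
  rw [← h1, ← mul_add, ← Finset.sum_add_distrib]
  congr 1
  refine Finset.sum_congr rfl fun i _ => ?_
  unfold be al
  push_cast
  ring

theorem tw_add (t : ℝ) (n h : ℕ) (hn : 1 ≤ n) :
    tw t ((n + h : ℕ) : ℝ) = tw t n *
      Complex.exp (Complex.I * ((-t * Real.log (1 + (h : ℝ) / n) : ℝ) : ℂ)) := by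
  unfold tw er
  rw [← Complex.exp_add]
  congr 1
  have hn0 : (0 : ℝ) < n := by exact_mod_cast hn
  have h1 : ((n + h : ℕ) : ℝ) = n * (1 + (h : ℝ) / n) := by
    push_cast
    field_simp
  rw [h1, Real.log_mul hn0.ne' (by positivity)]
  push_cast
  ring

/-- the character -/
theorem chi_add {q : ℕ} (χ : DirichletCharacter ℂ q) (D : ℕ) (v : ℤ) (n x y : ℕ)
    (hv : (q : ℤ) ∣ (n : ℤ) * v - 1) :
    χ ((n + D * x * y : ℕ) : ZMod q) =
      χ (n : ZMod q) * χ ((1 + (D : ℤ) * (v * (x * y)) : ℤ) : ZMod q) := by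
  rw [← map_mul]
  congr 1
  have h1 : ((n : ℤ) : ZMod q) * ((v : ℤ) : ZMod q) = 1 := by
    have h2 := (ZMod.intCast_zmod_eq_zero_iff_dvd ((n : ℤ) * v - 1) q)
    have h3 : (((n : ℤ) * v - 1 : ℤ) : ZMod q) = 0 := by
      rw [ZMod.intCast_zmod_eq_zero_iff_dvd]
      exact hv
    push_cast at h3
    push_cast
    linear_combination h3
  push_cast at h1 ⊢
  linear_combination (-(D : ZMod q) * x * y) * h1

theorem aux_phase (A B C : ℝ) (h : 2 * Real.pi * A = 2 * Real.pi * B + C) :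
    (2 * Real.pi * Complex.I * (A : ℂ) : ℂ) =
      2 * Real.pi * Complex.I * (B : ℂ) + Complex.I * (C : ℂ) := by
  have h4 : ((2 * Real.pi * A : ℝ) : ℂ) = ((2 * Real.pi * B + C : ℝ) : ℂ) := by rw [h]
  push_cast at h4
  linear_combination Complex.I * h4

theorem inner {q D r N M : ℕ} (χ : DirichletCharacter ℂ q) (t : ℝ) (b : ℕ → ℤ) (Q : ℕ → ℕ)
    (v : ℤ) (hD : 1 ≤ D)
    (hχ : ∀ w : ℤ, χ ((1 + (D : ℤ) * w : ℤ) : ZMod q) =
      Complex.exp (2 * Real.pi * Complex.I *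
        ((∑ i ∈ Icc 1 r, (b i : ℝ) / (Q i : ℝ) * (w : ℝ) ^ i : ℝ) : ℂ)))
    (n : ℕ) (hv : (q : ℤ) ∣ (n : ℤ) * v - 1) (hN : 1 ≤ N) (hn : N < n) :
    ‖∑ x ∈ Icc 1 M, ∑ y ∈ Icc 1 M, χ ((n + D * x * y : ℕ) : ZMod q) *
        tw t ((n + D * x * y : ℕ) : ℝ)‖ ≤
      ‖TT r M (be D t b Q v n)‖ + (M : ℝ) ^ 2 * (|t| * (D * (M : ℝ) ^ 2 / N) ^ (r + 1)) := by
  have hn1 : 1 ≤ n := by omega
  have hN0 : (0 : ℝ) < N := by exact_mod_cast hN
  have hn0 : (0 : ℝ) < n := by exact_mod_cast hn1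
  have h1 : ∀ x ∈ Icc 1 M, ∀ y ∈ Icc 1 M,
      ‖χ ((n + D * x * y : ℕ) : ZMod q) * tw t ((n + D * x * y : ℕ) : ℝ) -
        (χ (n : ZMod q) * tw t n) *
        Complex.exp (2 * Real.pi * Complex.I *
          ((∑ j ∈ Icc 1 r, be D t b Q v n j * ((x : ℝ) * y) ^ j : ℝ) : ℂ))‖ ≤
      |t| * (D * (M : ℝ) ^ 2 / N) ^ (r + 1) := by
    intro x hx y hy
    have hx' := Finset.mem_Icc.1 hx
    have hy' := Finset.mem_Icc.1 hy
    have h2 : Complex.exp (2 * Real.pi * Complex.I *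
          ((∑ j ∈ Icc 1 r, be D t b Q v n j * ((x : ℝ) * y) ^ j : ℝ) : ℂ)) =
        Complex.exp (2 * Real.pi * Complex.I * ((∑ i ∈ Icc 1 r, (b i : ℝ) / (Q i : ℝ) *
          (((v * (x * y) : ℤ) : ℝ)) ^ i : ℝ) : ℂ)) *
        Complex.exp (Complex.I * ((-t * Lr r ((D : ℝ) * x * y / n) : ℝ) : ℂ)) := by
      rw [← Complex.exp_add]
      congr 1
      exact aux_phase _ _ _ (phase_be D t b Q v n r x y hn1)
    have h6 : tw t ((n + D * x * y : ℕ) : ℝ) = tw t n *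
        Complex.exp (Complex.I * ((-t * Real.log (1 + (D : ℝ) * x * y / n) : ℝ) : ℂ)) := by
      rw [tw_add t n (D * x * y) hn1]
      push_cast
      rfl
    have h7 : χ ((n + D * x * y : ℕ) : ZMod q) = χ (n : ZMod q) *
        Complex.exp (2 * Real.pi * Complex.I * ((∑ i ∈ Icc 1 r, (b i : ℝ) / (Q i : ℝ) *
          (((v * (x * y) : ℤ) : ℝ)) ^ i : ℝ) : ℂ)) := by
      rw [chi_add χ D v n x y hv, hχ]
    have h8 : ∀ A B C E F : ℂ, (A * E) * (B * C) - (A * B) * (E * F) = (A * B * E) * (C - F) := by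
      intro A B C E F; ring
    rw [h7, h6, h2, h8, norm_mul]
    have h9 : ‖χ (n : ZMod q) * tw t n * Complex.exp (2 * Real.pi * Complex.I *
        ((∑ i ∈ Icc 1 r, (b i : ℝ) / (Q i : ℝ) * (((v * (x * y) : ℤ) : ℝ)) ^ i : ℝ) : ℂ))‖ ≤ 1 := by
      rw [norm_mul]
      have e1 : 2 * Real.pi * Complex.I * ((∑ i ∈ Icc 1 r, (b i : ℝ) / (Q i : ℝ) *
          (((v * (x * y) : ℤ) : ℝ)) ^ i : ℝ) : ℂ) = ((2 * Real.pi * (∑ i ∈ Icc 1 r,
          (b i : ℝ) / (Q i : ℝ) * (((v * (x * y) : ℤ) : ℝ)) ^ i) : ℝ) : ℂ) * Complex.I := by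
        rw [Complex.ofReal_mul]
        have h5 : ((2 * Real.pi : ℝ) : ℂ) = 2 * Real.pi := by push_cast; ring
        rw [h5]
        ring
      rw [e1, Complex.norm_exp_ofReal_mul_I, mul_one]
      exact norm_f χ t n
    refine (mul_le_mul h9 (exp_sub_le _ _) (norm_nonneg _) zero_le_one).trans ?_
    rw [one_mul, ← mul_sub, abs_mul, abs_neg]
    refine mul_le_mul_of_nonneg_left ?_ (abs_nonneg _)
    refine (log_bound r _ (by positivity)).trans ?_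
    refine pow_le_pow_left₀ (by positivity) ?_ _
    have h3 : (x : ℝ) ≤ M := by exact_mod_cast hx'.2
    have h4 : (y : ℝ) ≤ M := by exact_mod_cast hy'.2
    have h5 : (N : ℝ) ≤ n := by exact_mod_cast hn.le
    have h6 : (D : ℝ) * x * y ≤ D * (M : ℝ) ^ 2 := by
      rw [sq, mul_assoc]
      exact mul_le_mul_of_nonneg_left (mul_le_mul h3 h4 (by positivity) (by positivity))
        (by positivity)
    exact div_le_div₀ (by positivity) h6 hN0 h5
  have h2 : ∑ x ∈ Icc 1 M, ∑ y ∈ Icc 1 M,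
      χ ((n + D * x * y : ℕ) : ZMod q) * tw t ((n + D * x * y : ℕ) : ℝ) =
      (χ (n : ZMod q) * tw t n) * TT r M (be D t b Q v n) +
      ∑ x ∈ Icc 1 M, ∑ y ∈ Icc 1 M,
        (χ ((n + D * x * y : ℕ) : ZMod q) * tw t ((n + D * x * y : ℕ) : ℝ) -
        (χ (n : ZMod q) * tw t n) *
        Complex.exp (2 * Real.pi * Complex.I *
          ((∑ j ∈ Icc 1 r, be D t b Q v n j * ((x : ℝ) * y) ^ j : ℝ) : ℂ))) := by
    unfold TT
    simp only [Finset.sum_sub_distrib, Finset.mul_sum]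
    ring
  rw [h2]
  refine (norm_add_le _ _).trans ?_
  rw [norm_mul]
  refine add_le_add ?_ ?_
  · exact (mul_le_mul_of_nonneg_right (norm_f χ t n) (norm_nonneg _)).trans (by rw [one_mul])
  refine (norm_sum_le _ _).trans ?_
  refine (Finset.sum_le_sum fun x hx => (norm_sum_le _ _).trans
    (Finset.sum_le_sum fun y hy => h1 x hx y hy)).trans ?_
  simp only [Finset.sum_const, Nat.card_Icc, Nat.add_sub_cancel, nsmul_eq_mul]
  rw [sq]
  linarith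

theorem shiftq : S_SHIFTQ := by
  intro q D r N N' M χ t b Q v hq hr hD hDq hrad hχ hv hN hNN hN2 hM
  obtain ⟨f, hf⟩ : ∃ f : ℕ → ℂ, ∀ n, f n = χ (n : ZMod q) * tw t n := ⟨_, fun _ => rfl⟩
  have hf1 : ∀ n, ‖f n‖ ≤ 1 := fun n => by rw [hf]; exact norm_f χ t n
  obtain ⟨S, hS⟩ : ∃ S, S = ∑ n ∈ Ioc N N', f n := ⟨_, rfl⟩
  have hS' : ∑ n ∈ Ioc N N', χ (n : ZMod q) * tw t n = S := by
    rw [hS]
    exact Finset.sum_congr rfl fun n _ => (hf n).symm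
  rw [hS']
  have hM0 : (0 : ℝ) < M := by exact_mod_cast hM
  have h1 : (M : ℂ) ^ 2 * S = ∑ x ∈ Icc 1 M, ∑ y ∈ Icc 1 M,
      (S - ∑ n ∈ Ioc N N', f (n + D * x * y)) +
      ∑ n ∈ Ioc N N', ∑ x ∈ Icc 1 M, ∑ y ∈ Icc 1 M, f (n + D * x * y) := by
    have h2 : ∑ n ∈ Ioc N N', ∑ x ∈ Icc 1 M, ∑ y ∈ Icc 1 M, f (n + D * x * y) =
        ∑ x ∈ Icc 1 M, ∑ y ∈ Icc 1 M, ∑ n ∈ Ioc N N', f (n + D * x * y) := by
      rw [Finset.sum_comm]
      refine Finset.sum_congr rfl fun x _ => ?_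
      rw [Finset.sum_comm]
    rw [h2]
    simp only [Finset.sum_sub_distrib, Finset.sum_const, Nat.card_Icc, Nat.add_sub_cancel,
      nsmul_eq_mul]
    ring
  have hin : ∀ n ∈ Ioc N N', ‖∑ x ∈ Icc 1 M, ∑ y ∈ Icc 1 M, f (n + D * x * y)‖ ≤
      (if n.Coprime q then ‖TT r M (be D t b Q (v n) n)‖ else 0) +
        (M : ℝ) ^ 2 * (|t| * (D * (M : ℝ) ^ 2 / N) ^ (r + 1)) := by
    intro n hn
    have hnN := (Finset.mem_Ioc.1 hn).1
    by_cases hc : n.Coprime q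
    · rw [if_pos hc]
      have h2 := inner (M := M) χ t b Q (v n) hD hχ n (hv n hc) hN hnN
      refine le_trans (le_of_eq ?_) h2
      congr 1
      refine Finset.sum_congr rfl fun x _ => Finset.sum_congr rfl fun y _ => ?_
      rw [hf]
    · rw [if_neg hc, zero_add]
      have h2 : ∑ x ∈ Icc 1 M, ∑ y ∈ Icc 1 M, f (n + D * x * y) = 0 := by
        refine Finset.sum_eq_zero fun x _ => Finset.sum_eq_zero fun y _ => ?_
        rw [hf]
        obtain ⟨p, hp, hpn, hpq⟩ := Nat.Prime.not_coprime_iff_dvd.1 hc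
        have h3 : ¬ IsUnit ((n + D * x * y : ℕ) : ZMod q) := by
          rw [ZMod.isUnit_iff_coprime]
          intro h4
          have h5 : p ∣ n + D * x * y := by
            refine dvd_add hpn ?_
            rw [mul_assoc]
            exact (hrad p hp hpq).mul_right _
          have h6 := Nat.dvd_gcd h5 hpq
          rw [h4] at h6
          exact hp.one_lt.ne' (Nat.dvd_one.1 h6)
        rw [χ.map_nonunit h3, zero_mul]
      rw [h2, norm_zero]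
      positivity
  have h3 : (M : ℝ) ^ 2 * ‖S‖ ≤ (M : ℝ) ^ 2 * (2 * (D * (M : ℝ) ^ 2)) +
      ∑ n ∈ Ioc N N', ((if n.Coprime q then ‖TT r M (be D t b Q (v n) n)‖ else 0) +
        (M : ℝ) ^ 2 * (|t| * (D * (M : ℝ) ^ 2 / N) ^ (r + 1))) := by
    have h4 : ‖(M : ℂ) ^ 2 * S‖ = (M : ℝ) ^ 2 * ‖S‖ := by
      rw [norm_mul, norm_pow, Complex.norm_natCast]
    rw [← h4, h1]
    refine (norm_add_le _ _).trans (add_le_add ?_ ?_)
    · refine (norm_sum_le _ _).trans ?_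
      refine (Finset.sum_le_sum (g := fun _ => (M : ℝ) * (2 * (D * (M : ℝ) ^ 2))) fun x hx =>
        (norm_sum_le _ _).trans ?_).trans ?_
      · refine (Finset.sum_le_sum (g := fun _ => 2 * (D * (M : ℝ) ^ 2)) fun y hy => ?_).trans ?_
        · rw [hS]
          refine (shift_one f hf1 N N' (D * x * y) hNN).trans ?_
          have hx' : (x : ℝ) ≤ M := by exact_mod_cast (Finset.mem_Icc.1 hx).2
          have hy' : (y : ℝ) ≤ M := by exact_mod_cast (Finset.mem_Icc.1 hy).2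
          have h5 : (x : ℝ) * y ≤ M * M := mul_le_mul hx' hy' (by positivity) (by positivity)
          have h6 : (D : ℝ) * (x * y) ≤ D * (M * M) := mul_le_mul_of_nonneg_left h5 (by positivity)
          push_cast
          nlinarith
        · simp
      · simp only [Finset.sum_const, Nat.card_Icc, Nat.add_sub_cancel, nsmul_eq_mul]
        rw [sq]
        linarith
    · exact (norm_sum_le _ _).trans (Finset.sum_le_sum hin)
  rw [Finset.sum_add_distrib] at h3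
  have h5 : ∑ n ∈ Ioc N N', (M : ℝ) ^ 2 * (|t| * (D * (M : ℝ) ^ 2 / N) ^ (r + 1)) ≤
      (M : ℝ) ^ 2 * (N * |t| * (D * (M : ℝ) ^ 2 / N) ^ (r + 1)) := by
    rw [Finset.sum_const, Nat.card_Ioc, nsmul_eq_mul]
    have h6 : ((N' - N : ℕ) : ℝ) ≤ N := by exact_mod_cast (by omega : N' - N ≤ N)
    have h7 : 0 ≤ (M : ℝ) ^ 2 * (|t| * (D * (M : ℝ) ^ 2 / N) ^ (r + 1)) := by positivity
    calc _ ≤ (N : ℝ) * ((M : ℝ) ^ 2 * (|t| * (D * (M : ℝ) ^ 2 / N) ^ (r + 1))) :=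
          mul_le_mul_of_nonneg_right h6 h7
      _ = _ := by ring
  rw [← Finset.sum_filter] at h3
  have h8 : (0 : ℝ) < (M : ℝ) ^ 2 := by positivity
  have h9 : (M : ℝ) ^ 2 * ‖S‖ ≤ (M : ℝ) ^ 2 * (1 / (M : ℝ) ^ 2 *
      ∑ n ∈ (Ioc N N').filter (fun n => n.Coprime q), ‖TT r M (be D t b Q (v n) n)‖ +
      2 * (D * (M : ℝ) ^ 2) + N * |t| * (D * (M : ℝ) ^ 2 / N) ^ (r + 1)) := by
    have h10 : (M : ℝ) ^ 2 * (1 / (M : ℝ) ^ 2 *
      ∑ n ∈ (Ioc N N').filter (fun n => n.Coprime q), ‖TT r M (be D t b Q (v n) n)‖ +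
      2 * (D * (M : ℝ) ^ 2) + N * |t| * (D * (M : ℝ) ^ 2 / N) ^ (r + 1)) =
        ∑ n ∈ (Ioc N N').filter (fun n => n.Coprime q), ‖TT r M (be D t b Q (v n) n)‖ +
        (M : ℝ) ^ 2 * (2 * (D * (M : ℝ) ^ 2)) + (M : ℝ) ^ 2 *
          (N * |t| * (D * (M : ℝ) ^ 2 / N) ^ (r + 1)) := by
      field_simp
    rw [h10]
    linarith
  exact le_of_mul_le_mul_left h9 h8

end Pool.Agent.H278.PP
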